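import Pool.Agent.Helper39_MWS.CbLem

/-!
# Squad MWS, row JPV (helper39): the edges are join prime
-/

set_option autoImplicit false

namespace Pool.Agent.MWS.H39

open Pool.Agent.Helper14_MV Pool.Agent.Helper2_MV Pool.Agent.MVO Pool.Agent.MWL

/-- the letters `0` and `1` of a word -/
def gg (w : List ℕ) : List ℕ := w.filter (fun c => decide (c < 2))

theorem gg_append (u v : List ℕ) : gg (u ++ v) = gg u ++ gg v := List.filter_append ..

theorem mem_gg {w : List ℕ} {c : ℕ} : c ∈ gg w ↔ c ∈ w ∧ c < 2 := by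
  unfold gg
  rw [List.mem_filter]
  simp

theorem gg_self {l : List ℕ} (hl : LL l) : gg l = l := by
  unfold gg
  rw [List.filter_eq_self]
  intro c hc
  rcases hl.mem c hc with rfl | rfl <;> simp

theorem ff2_has {θ : FIC} (h : Has 1 (FC.ofFIC θ) Bit.F) : FF2 θ := by
  have h1 : RR θ (mw 2 (v3 2 0 2)) (mw 2 (ad 1 (v3 2 0 2) 1)) := h
  have e1 : mw 2 (v3 2 0 2) = [0, 0, 2, 3, 0, 0] := by decide
  have e2 : mw 2 (ad 1 (v3 2 0 2) 1) = [0, 0, 2, 0, 0, 3, 0, 0] := by decide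
  rw [e1, e2] at h1
  exact h1

/-- all the supports are kept if `FF2` fails -/
theorem supp_eq (hone : MVO.OneStmt) (hspf : SpfStmt) {θ : FIC} (hlr : LR 1 (FC.ofFIC θ))
    (hnd : ND (FC.ofFIC θ)) (hF : ¬ FF2 θ) {k : ℕ} {B B' : ℕ → List ℕ} (hB : OkB k B)
    (hB' : OkB k B') (hr : RR θ (asm k B) (asm k B')) {c : ℕ} (hc : c = 0 ∨ c = 1)
    (hm : ∃ j ≤ k, c ∈ B j) : ∀ j ≤ k, (c ∈ B j ↔ c ∈ B' j) := by
  have hL : L1 θ k (ty B c) (ty B' c) := hone.1 θ k B B' c (ns01 hc) hB.ok hB'.ok hr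
  have hd : 2 ≤ deg k (ty B c) := by
    obtain ⟨j, hj, hcj⟩ := hm
    exact hB.ml j hj c hcj
  have hm' : ∃ j ≤ k, c ∈ B' j := by
    by_contra hcon
    push Not at hcon
    obtain ⟨j, hj, hcj⟩ := hm
    have h0 : deg k (ty B' c) ≤ 1 := by
      have : deg k (ty B' c) = 0 := by
        unfold deg
        refine Finset.sum_eq_zero fun j hj => ?_
        have hj' : j ≤ k := by
          have := Finset.mem_range.1 hj
          omega
        exact ty_zero.2 (hcon j hj')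
      omega
    have h1 := hnd k _ _ ((FC.ofFIC θ).symm hL) h0 j hj
    rw [ty_zero.2 (hcon j hj)] at h1
    exact (ty_zero.1 h1.symm) hcj
  have hd' : 2 ≤ deg k (ty B' c) := by
    obtain ⟨j, hj, hcj⟩ := hm'
    exact hB'.ml j hj c hcj
  intro j hj
  constructor
  · intro h1
    by_contra h2
    exact hF (ff2_has (hspf (FC.ofFIC θ) hlr hnd k (ty B' c) (ty B c) j hj hd'
      ((FC.ofFIC θ).symm hL) (ty_zero.2 h2) (fun h => (ty_zero.1 h) h1)))
  · intro h1
    by_contra h2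
    exact hF (ff2_has (hspf (FC.ofFIC θ) hlr hnd k (ty B c) (ty B' c) j hj hd hL
      (ty_zero.2 h2) (fun h => (ty_zero.1 h) h1)))

theorem hv_congr {m n : ℕ} (h : m = 0 ↔ n = 0) : hv m = hv n := by
  unfold hv
  by_cases hm : m = 0
  · rw [if_pos hm, if_pos (h.1 hm)]
  · rw [if_neg hm, if_neg fun h' => hm (h.2 h')]

theorem cb_congr {k : ℕ} {a b a' b' : ℕ → ℕ} (h : ∀ j ≤ k, (a j = 0 ↔ a' j = 0) ∧ (b j = 0 ↔ b' j = 0))
    (e : ℕ → Bool) (i : ℕ) (l : List ℕ) : asm k (cb a b e i l) = asm k (cb a' b' e i l) := by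
  refine asm_congr fun j hj => ?_
  unfold cb
  rw [hv_congr (h j hj).1, hv_congr (h j hj).2]

/-- case 1 -/
theorem jpv1 (hone : MVO.OneStmt) (hndn : NdnStmt) (hlrn : LrnStmt) (hjpi : JpiStmt)
    (hbsx : BsxStmt) (htwv : TwvStmt) (hfex : FexStmt) (hspf : SpfStmt)
    {V : ℕ → (ℕ → ℕ) → (ℕ → ℕ) → ℕ → Prop} {β : FIC} (hV : VisOk V) (hC : ClV V β) {k : ℕ}
    {a b : ℕ → ℕ} (e : ℕ → Bool) {i : ℕ} (h : V k a b i)
    (hcase : (∃ j < i, b j ≠ 0) ∨ ∃ j, i < j ∧ j ≤ k ∧ a j ≠ 0) : JPp β (edg k a b e i) := by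
  obtain ⟨hi, hai, hbi⟩ := hV.mem _ _ _ _ h
  refine hjpi β hC.toApI k (cb a b e i [0, 0, 1, 1]) (cb a b e i [0, 1, 0, 1])
    (fun B => (∀ j ≤ k, (0 ∈ B j ↔ a j ≠ 0) ∧ (1 ∈ B j ↔ b j ≠ 0)) ∧ Bef (B i) 0 1)
    (cb_ok ll_a hi) (cb_ok ll_b hi) (cb_two ll_a) ?_ ?_ ?_ ?_
  · refine ⟨fun j _ => ⟨cb_mem0 ll_a hai j, cb_mem1 ll_a hbi j⟩, ?_⟩
    rw [cb_self]
    exact bef_a
  · rintro ⟨-, h1⟩
    rw [cb_self] at h1
    exact bef_b h1
  · rintro B B' hBB ⟨h1, h2⟩
    refine ⟨fun j hj => ?_, ?_⟩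
    · rw [← hBB j hj]
      exact h1 j hj
    · rw [← hBB i hi]
      exact h2
  · rintro θ hθ hnc hne B B' hB hB' h2 h2' hr ⟨h3, h4⟩
    have hF : ¬ FF2 θ := fun hF => hne (hfex β θ hC.toClX hθ hF k a b i hi hcase e)
    have hlr : LR 1 (FC.ofFIC θ) := hlrn β θ (hbsx β hC.toClX) hθ
    have hnd : ND (FC.ofFIC θ) := hndn β θ hC.toApI hθ hnc
    have s0 := supp_eq hone hspf hlr hnd hF hB hB' hr (c := 0) (Or.inl rfl)
      ⟨i, hi, (h3 i hi).1.2 hai⟩
    have s1 := supp_eq hone hspf hlr hnd hF hB hB' hr (c := 1) (Or.inr rfl)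
      ⟨i, hi, (h3 i hi).2.2 hbi⟩
    have hsm : SmL k B B' := by
      intro j hj c
      constructor
      · intro hc
        rcases h2 j hj c hc with rfl | rfl
        · exact (s0 j hj).1 hc
        · exact (s1 j hj).1 hc
      · intro hc
        rcases h2' j hj c hc with rfl | rfl
        · exact (s0 j hj).2 hc
        · exact (s1 j hj).2 hc
    refine ⟨fun j hj => ⟨(s0 j hj).symm.trans (h3 j hj).1, (s1 j hj).symm.trans (h3 j hj).2⟩, ?_⟩
    by_contra hcon
    have hsup : ∀ j ≤ k, (a j = 0 ↔ ty B 0 j = 0) ∧ (b j = 0 ↔ ty B 1 j = 0) := by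
      intro j hj
      rw [ty_zero, ty_zero, (h3 j hj).1, (h3 j hj).2]
      tauto
    have hVB : V k (ty B 0) (ty B 1) i := hV.ext k a b _ _ i hsup h
    have hTE := htwv V β θ hV hC hθ k B B' hB hB' h2 h2' hsm i hVB hr h4 hcon e
    apply hne
    have e1 := cb_congr hsup e i [0, 0, 1, 1]
    have e2 := cb_congr hsup e i [0, 1, 0, 1]
    rw [e1, e2]
    exact hTE

/-- words in the letters `0`, `1` with both ends -/
theorem nf_zero (hnfv : NfvStmt) {V : ℕ → (ℕ → ℕ) → (ℕ → ℕ) → ℕ → Prop} {β : FIC} (hV : VisOk V)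
    (hC : ClV V β) {u v : List ℕ} (hu : LL u) (hv' : LL v) (h1 : Bef u 0 1 ↔ Bef v 0 1)
    (h2 : Bef u 1 0 ↔ Bef v 1 0) : RR β u v := by
  have hok : ∀ w : List ℕ, LL w → OkB 0 (fun _ => w) := by
    intro w hw
    refine ⟨fun j _ c _ hc => by omega, fun j _ c hc => ?_⟩
    have e1 : deg 0 (fun _ => w.count c) = w.count c := by
      unfold deg
      simp
    rw [e1]
    rcases hw.mem c hc with rfl | rfl
    · exact hw.c0
    · exact hw.c1
  have h3 := hnfv V β β hV hC (fic_le_refl β) 0 (fun _ => u) (fun _ => v) (hok u hu) (hok v hv')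
    (by
      intro j _ c
      constructor
      · intro hc
        rcases hu.mem c hc with rfl | rfl
        · exact hv'.m0
        · exact hv'.m1
      · intro hc
        rcases hv'.mem c hc with rfl | rfl
        · exact hu.m0
        · exact hu.m1)
    (by
      intro x y i' hxy h4 h5
      obtain ⟨-, hx, hy⟩ := hV.mem _ _ _ _ h4
      have hx1 : x ∈ u := by
        by_contra hc
        exact hx (List.count_eq_zero.2 hc)
      have hy1 : y ∈ u := by
        by_contra hc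
        exact hy (List.count_eq_zero.2 hc)
      exfalso
      apply h5
      rcases hu.mem x hx1 with rfl | rfl
      · rcases hu.mem y hy1 with rfl | rfl
        · exact absurd rfl hxy
        · exact h1
      · rcases hu.mem y hy1 with rfl | rfl
        · exact h2
        · exact absurd rfl hxy)
  exact h3

theorem ll_wrap (w : List ℕ) : LL ([0, 0] ++ gg w ++ [1, 1]) := by
  refine ⟨?_, ?_, ?_⟩
  · intro c hc
    simp only [List.mem_append, List.mem_cons, List.not_mem_nil, or_false, mem_gg] at hc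
    omega
  · rw [List.count_append, List.count_append]
    have : ([0, 0] : List ℕ).count 0 = 2 := by decide
    omega
  · rw [List.count_append, List.count_append]
    have : ([1, 1] : List ℕ).count 1 = 2 := by decide
    omega

theorem bef_wrap (w : List ℕ) : (Bef ([0, 0] ++ gg w ++ [1, 1]) 0 1 ↔ Bef (gg w) 0 1) ∧
    ¬ Bef ([0, 0] ++ gg w ++ [1, 1]) 1 0 := by
  constructor
  · rw [bef_append, bef_append]
    constructor
    · exact fun h => h.1.2.1
    · intro h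
      exact ⟨⟨bef_of_not_mem (by decide), h, Or.inl (by decide)⟩, bef_of_not_mem' (by decide),
        Or.inr (by decide)⟩
  · rw [bef_append]
    rintro ⟨-, -, h⟩
    rcases h with h | h
    · exact h (by simp)
    · exact h (by simp)

/-- case 2 -/
theorem jpv2 (hcap : CapStmt) (hjpi : JpiStmt) (hnfv : NfvStmt)
    {V : ℕ → (ℕ → ℕ) → (ℕ → ℕ) → ℕ → Prop} {β : FIC} (hV : VisOk V) (hC : ClV V β) {k : ℕ}
    {a b : ℕ → ℕ} (e : ℕ → Bool) {i : ℕ} (h : V k a b i)
    (hb : ∀ j < i, b j = 0) (ha : ∀ j, i < j → j ≤ k → a j = 0) : JPp β (edg k a b e i) := by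
  obtain ⟨hi, hai, hbi⟩ := hV.mem _ _ _ _ h
  -- the form of the words
  have hsplit : ∀ l : List ℕ, ∃ P Q : List ℕ, 1 ∉ P ∧ 0 ∉ Q ∧
      (∀ l' : List ℕ, asm k (cb a b e i l') = P ++ l' ++ Q) := by
    intro l
    refine ⟨pre (cb a b e i []) i, suf (cb a b e i []) i (k - i), ?_, ?_, ?_⟩
    · rw [mem_pre]
      rintro (h1 | ⟨j, hj, h1⟩)
      · omega
      · rw [cb_ne (by omega), mem_bl, hv_ne, hv_ne] at h1
        rcases h1 with h1 | h1
        · omega
        · exact h1.2 (hb j hj)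
    · rw [mem_suf]
      rintro (h1 | ⟨j, hj, hj2, h1⟩)
      · omega
      · rw [cb_ne (by omega), mem_bl, hv_ne, hv_ne] at h1
        rcases h1 with h1 | h1
        · exact h1.2 (ha j hj (by omega))
        · omega
    · intro l'
      have e1 : asm k (cb a b e i l') = asm k (Function.update (cb a b e i []) i l') := by
        refine asm_congr fun j _ => ?_
        by_cases hj : j = i
        · subst hj
          rw [cb_self, Function.update_self]
        · rw [cb_ne hj, Function.update_of_ne hj, cb_ne hj]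
      rw [e1, asm_update hi]
  obtain ⟨P, Q, hP, hQ, hPQ⟩ := hsplit []
  have hP' : 1 ∉ gg P := fun h => hP (mem_gg.1 h).1
  have hQ' : 0 ∉ gg Q := fun h => hQ (mem_gg.1 h).1
  refine hjpi β hC.toApI k (cb a b e i [0, 0, 1, 1]) (cb a b e i [0, 1, 0, 1])
    (fun B => 0 ∈ asm k B ∧ 1 ∈ asm k B ∧ Bef (gg (asm k B)) 0 1)
    (cb_ok ll_a hi) (cb_ok ll_b hi) (cb_two ll_a) ?_ ?_ ?_ ?_
  · rw [hPQ]
    refine ⟨by simp, by simp, ?_⟩
    rw [gg_append, gg_append, gg_self ll_a, bef_append, bef_append]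
    exact ⟨⟨bef_of_not_mem hP', bef_a, Or.inl hP'⟩, bef_of_not_mem' hQ', Or.inr hQ'⟩
  · rw [hPQ]
    rintro ⟨-, -, h1⟩
    rw [gg_append, gg_append, gg_self ll_b, bef_append, bef_append] at h1
    exact bef_b h1.1.2.1
  · intro B B' hBB h1
    rw [← asm_congr hBB]
    exact h1
  · rintro θ hθ hnc hne B B' hB hB' h2 h2' hr ⟨h3, h4, h5⟩
    have hmem : ∀ c, c ∈ asm k B → c ∈ asm k B' := by
      intro c hc
      have h6 := hcap β θ hC.toApI hθ hnc _ _ hr c
      have h7 := List.count_pos_iff.2 hc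
      apply List.count_pos_iff.1
      omega
    refine ⟨hmem 0 h3, hmem 1 h4, ?_⟩
    by_contra hcon
    have h6 : RR θ (gg (asm k B)) (gg (asm k B')) := hr.filter _
    have h7 : RR θ ([0, 0] ++ gg (asm k B) ++ [1, 1]) ([0, 0] ++ gg (asm k B') ++ [1, 1]) :=
      ((RR.refl [0, 0]).append h6).append (RR.refl [1, 1])
    have h8 : RR β [0, 0, 1, 1] ([0, 0] ++ gg (asm k B) ++ [1, 1]) := by
      refine nf_zero hnfv hV hC ll_a (ll_wrap _) ?_ ?_
      · rw [(bef_wrap _).1]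
        exact ⟨fun _ => h5, fun _ => bef_a⟩
      · exact ⟨fun h => absurd h bef_a', fun h => absurd h (bef_wrap _).2⟩
    have h9 : RR β ([0, 0] ++ gg (asm k B') ++ [1, 1]) [0, 1, 0, 1] := by
      refine nf_zero hnfv hV hC (ll_wrap _) ll_b ?_ ?_
      · rw [(bef_wrap _).1]
        exact ⟨fun h => absurd h hcon, fun h => absurd h bef_b⟩
      · exact ⟨fun h => absurd h (bef_wrap _).2, fun h => absurd h bef_b'⟩
    have h10 : RR θ [0, 0, 1, 1] [0, 1, 0, 1] := θ.trans (hθ _ _ h8) (θ.trans h7 (hθ _ _ h9))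
    apply hne
    rw [hPQ, hPQ]
    exact ((RR.refl P).append h10).append (RR.refl Q)

/-- row JPV -/
theorem jpv (hone : MVO.OneStmt) (hcap : CapStmt) (hndn : NdnStmt) (hlrn : LrnStmt)
    (hjpi : JpiStmt) (hbsx : BsxStmt) (hnfv : NfvStmt) (_htev : TevStmt) (htwv : TwvStmt)
    (hfex : FexStmt) (hspf : SpfStmt) : JpvStmt := by
  intro V β hV hC k a b e i h
  by_cases hcase : (∃ j < i, b j ≠ 0) ∨ ∃ j, i < j ∧ j ≤ k ∧ a j ≠ 0
  · exact jpv1 hone hndn hlrn hjpi hbsx htwv hfex hspf hV hC e h hcase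
  · push Not at hcase
    exact jpv2 hcap hjpi hnfv hV hC e h hcase.1 hcase.2

end Pool.Agent.MWS.H39
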