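import Pool.Agent.MWS.StmtsW

/-!
# Squad MWS (helper39): lemmas on canonical two letter blocks
-/

set_option autoImplicit false

namespace Pool.Agent.MWS.H39

open Pool.Agent.Helper14_MV Pool.Agent.Helper2_MV Pool.Agent.MVO Pool.Agent.MWL

theorem hv_ne {n : ℕ} : hv n ≠ 0 ↔ n ≠ 0 := by
  unfold hv
  split_ifs with h <;> simp [h]

theorem mem_bl {p q c : ℕ} {e : Bool} : c ∈ bl p q e ↔ (c = 0 ∧ p ≠ 0) ∨ (c = 1 ∧ q ≠ 0) := by
  unfold bl
  cases e
  · simp only [Bool.false_eq_true, if_false, List.mem_append, List.mem_replicate]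
    tauto
  · simp only [if_true, List.mem_append, List.mem_replicate]
    tauto

/-- `l` contains exactly the letters `0` and `1`, both at least twice -/
structure LL (l : List ℕ) : Prop where
  mem : ∀ c ∈ l, c = 0 ∨ c = 1
  c0 : 2 ≤ l.count 0
  c1 : 2 ≤ l.count 1

theorem LL.m0 {l : List ℕ} (h : LL l) : 0 ∈ l := List.count_pos_iff.1 (by have := h.c0; omega)

theorem LL.m1 {l : List ℕ} (h : LL l) : 1 ∈ l := List.count_pos_iff.1 (by have := h.c1; omega)

theorem ll_a : LL [0, 0, 1, 1] := ⟨by simp, by decide, by decide⟩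

theorem ll_b : LL [0, 1, 0, 1] := ⟨by simp, by decide, by decide⟩

variable {k : ℕ} {a b : ℕ → ℕ} {e : ℕ → Bool} {i : ℕ} {l : List ℕ}

theorem cb_self : cb a b e i l i = l := by
  unfold cb
  rw [if_pos rfl]

theorem cb_ne {j : ℕ} (h : j ≠ i) : cb a b e i l j = bl (hv (a j)) (hv (b j)) (e j) := by
  unfold cb
  rw [if_neg h]

theorem cb_mem (hl : LL l) {j c : ℕ} (h : c ∈ cb a b e i l j) : c = 0 ∨ c = 1 := by
  by_cases hj : j = i
  · subst hj
    rw [cb_self] at h
    exact hl.mem c h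
  · rw [cb_ne hj, mem_bl] at h
    rcases h with h | h
    · exact Or.inl h.1
    · exact Or.inr h.1

theorem cb_mem0 (hl : LL l) (hai : a i ≠ 0) (j : ℕ) : 0 ∈ cb a b e i l j ↔ a j ≠ 0 := by
  by_cases hj : j = i
  · subst hj
    rw [cb_self]
    exact ⟨fun _ => hai, fun _ => hl.m0⟩
  · rw [cb_ne hj, mem_bl, hv_ne]
    simp

theorem cb_mem1 (hl : LL l) (hbi : b i ≠ 0) (j : ℕ) : 1 ∈ cb a b e i l j ↔ b j ≠ 0 := by
  by_cases hj : j = i
  · subst hj
    rw [cb_self]
    exact ⟨fun _ => hbi, fun _ => hl.m1⟩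
  · rw [cb_ne hj, mem_bl, hv_ne, hv_ne]
    simp

theorem cb_two (hl : LL l) : Two01 k (cb a b e i l) := fun _ _ _ hc => cb_mem hl hc

theorem ns01 {c : ℕ} (h : c = 0 ∨ c = 1) : NS k c := by
  rintro ⟨h1, h2⟩
  omega

theorem cb_ok (hl : LL l) (hi : i ≤ k) : OkB k (cb a b e i l) := by
  refine ⟨fun j _ c hc => ns01 (cb_mem hl hc), fun j _ c hc => ?_⟩
  unfold deg
  have h1 : (cb a b e i l i).count c ≤
      ∑ j ∈ Finset.range (k + 1), (cb a b e i l j).count c :=
    Finset.single_le_sum (f := fun j => (cb a b e i l j).count c) (fun _ _ => Nat.zero_le _)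
      (Finset.mem_range.2 (by omega))
  refine le_trans ?_ h1
  rw [cb_self]
  rcases cb_mem hl hc with rfl | rfl
  · exact hl.c0
  · exact hl.c1

theorem ty_zero {B : ℕ → List ℕ} {c j : ℕ} : ty B c j = 0 ↔ c ∉ B j := List.count_eq_zero

/-- a visible block of the letters of a two letter family -/
theorem vis_two {V : ℕ → (ℕ → ℕ) → (ℕ → ℕ) → ℕ → Prop} (hV : VisOk V) (h : V k a b i)
    {B : ℕ → List ℕ} (h2 : Two01 k B) (hm : ∀ j ≤ k, (0 ∈ B j ↔ a j ≠ 0) ∧ (1 ∈ B j ↔ b j ≠ 0))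
    {x y i' : ℕ} (hxy : x ≠ y) (h' : V k (ty B x) (ty B y) i') :
    i' = i ∧ ((x = 0 ∧ y = 1) ∨ (x = 1 ∧ y = 0)) := by
  obtain ⟨hk, hx, hy⟩ := hV.mem _ _ _ _ h'
  have hx1 : x ∈ B i' := by
    by_contra hc
    exact hx (ty_zero.2 hc)
  have hy1 : y ∈ B i' := by
    by_contra hc
    exact hy (ty_zero.2 hc)
  have e0 : ∀ j ≤ k, (ty B 0 j = 0 ↔ a j = 0) := by
    intro j hj
    rw [ty_zero, (hm j hj).1]
    tauto
  have e1 : ∀ j ≤ k, (ty B 1 j = 0 ↔ b j = 0) := by
    intro j hj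
    rw [ty_zero, (hm j hj).2]
    tauto
  rcases h2 i' hk x hx1 with rfl | rfl
  · rcases h2 i' hk y hy1 with rfl | rfl
    · exact absurd rfl hxy
    · have h3 : V k a b i' := hV.ext k _ _ a b i' (fun j hj => ⟨e0 j hj, e1 j hj⟩) h'
      exact ⟨(hV.uni k a b i i' h h3).symm, Or.inl ⟨rfl, rfl⟩⟩
  · rcases h2 i' hk y hy1 with rfl | rfl
    · have h3 : V k b a i' := hV.ext k _ _ b a i' (fun j hj => ⟨e1 j hj, e0 j hj⟩) h'
      exact ⟨(hV.unj k a b i i' h h3).symm, Or.inr ⟨rfl, rfl⟩⟩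
    · exact absurd rfl hxy

theorem fic_le_refl (β : FIC) : β ≤ β := fun _ _ h => h

/-! ### `Bef` -/

theorem bef_iff {l : List ℕ} {x y : ℕ} : Bef l x y ↔ ¬ [y, x].Sublist l := by
  constructor
  · intro h hs
    obtain ⟨r1, r2, rfl, h1, h2⟩ := List.cons_sublist_iff.1 hs
    obtain ⟨P, Q, rfl⟩ := List.append_of_mem h1
    refine h P (Q ++ r2) (by simp) ?_
    exact List.mem_append_right _ (List.singleton_sublist.1 h2)
  · intro h P Q hl hx
    apply h
    rw [hl]
    have h1 : [y, x].Sublist (y :: Q) := (List.singleton_sublist.2 hx).cons_cons y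
    exact h1.trans (List.sublist_append_right P (y :: Q))

theorem bef_append {l m : List ℕ} {x y : ℕ} :
    Bef (l ++ m) x y ↔ Bef l x y ∧ Bef m x y ∧ (y ∉ l ∨ x ∉ m) := by
  rw [bef_iff, bef_iff, bef_iff]
  constructor
  · intro h
    refine ⟨fun h1 => h (h1.trans (List.sublist_append_left l m)),
      fun h1 => h (h1.trans (List.sublist_append_right l m)), ?_⟩
    by_contra hcon
    push Not at hcon
    exact h ((List.singleton_sublist.2 hcon.1).append (List.singleton_sublist.2 hcon.2))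
  · rintro ⟨h1, h2, h3⟩ h4
    obtain ⟨r1, r2, hr, h5, h6⟩ := List.sublist_append_iff.1 h4
    rcases r1 with _ | ⟨c, r1⟩
    · simp only [List.nil_append] at hr
      rw [← hr] at h6
      exact h2 h6
    · rcases r1 with _ | ⟨d, r1⟩
      · simp only [List.cons_append, List.nil_append, List.cons.injEq] at hr
        obtain ⟨rfl, rfl⟩ := hr
        rcases h3 with h3 | h3
        · exact h3 (List.singleton_sublist.1 h5)
        · exact h3 (List.singleton_sublist.1 h6)
      · simp only [List.cons_append, List.cons.injEq] at hr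
        obtain ⟨rfl, rfl, hr⟩ := hr
        have h7 := List.append_eq_nil_iff.1 hr.symm
        rw [h7.1] at h5
        exact h1 h5

theorem bef_of_not_mem {l : List ℕ} {x y : ℕ} (h : y ∉ l) : Bef l x y := by
  intro P Q hl
  exact absurd (by rw [hl]; simp) h

theorem bef_of_not_mem' {l : List ℕ} {x y : ℕ} (h : x ∉ l) : Bef l x y := by
  intro P Q hl hx
  exact h (by rw [hl]; exact List.mem_append_right _ (List.mem_cons_of_mem _ hx))

theorem bef_a : Bef [0, 0, 1, 1] 0 1 := by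
  rw [bef_iff]
  decide

theorem bef_a' : ¬ Bef [0, 0, 1, 1] 1 0 := by
  rw [bef_iff, not_not]
  decide

theorem bef_b : ¬ Bef [0, 1, 0, 1] 0 1 := by
  rw [bef_iff, not_not]
  decide

theorem bef_b' : ¬ Bef [0, 1, 0, 1] 1 0 := by
  rw [bef_iff, not_not]
  decide

end Pool.Agent.MWS.H39
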