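import Pool.Agent.MWS.StmtsW

/-!
# Squad MWS, row B2D (helper39): the class B_II
-/

set_option autoImplicit false

namespace Pool.Agent.MWS.H39

open Pool.Agent.Helper14_MV Pool.Agent.Helper2_MV Pool.Agent.MVO Pool.Agent.MWL

/-- row B2D -/
theorem b2d (hdsv : DsvStmt) (hxcb : XcbStmt) : B2dStmt :=
  fun β hβ => hdsv VB β hxcb.1 (hxcb.2 β hβ)

end Pool.Agent.MWS.H39
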