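import Pool.Agent.MWS.StmtsA

/-!
# Squad MWS, row BLK (helper39): reduction to block words
-/

set_option autoImplicit false

namespace Pool.Agent.MWS.H39

open Pool.Agent.Helper14_MV Pool.Agent.Helper2_MV Pool.Agent.MVO Pool.Agent.MWL

theorem rr_map {θ : FIC} (π : ℕ → ℕ) {u v : List ℕ} (h : RR θ u v) :
    RR θ (u.map π) (v.map π) := by
  have h1 := h.sub (fun c => [π c])
  have e : ∀ l : List ℕ, l.flatMap (fun c => [π c]) = l.map π := by
    intro l
    induction l with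
    | nil => rfl
    | cons a l ih => rw [List.flatMap_cons, ih, List.map_cons]; rfl
  rwa [e, e] at h1

/-- row BLK -/
theorem blk (hren : MVO.RenStmt) (hnrm : NrmStmt) : BlkStmt := by
  intro β hβ hM ρ σ τ hρ hσ hτ nρ nσ nτ u v huv huv'
  obtain ⟨k, π, B, hu, hok, hml⟩ := hren u
  have h1 := rr_map π huv
  have h2 := rr_map π huv'
  rw [hu] at h1 h2
  obtain ⟨B', hv, hok', -⟩ := hnrm β τ hβ hτ nτ k B (v.map π) ⟨hok, hml⟩ h2
  rw [hv] at h1 h2
  have h3 := hM ρ σ τ hρ hσ hτ nρ nσ nτ k B B' ⟨hok, hml⟩ hok' h1 h2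
  rw [← hu, ← hv] at h3
  have h4 := rr_map π.symm h3
  have e : ∀ l : List ℕ, (l.map π).map π.symm = l := by
    intro l
    rw [List.map_map]
    simp
  rwa [e, e] at h4

end Pool.Agent.MWS.H39
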