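import Pool.Agent.MWS.StmtsA

/-!
# Squad MWS, row SHS (helper39): saturations of the same shape
-/

set_option autoImplicit false

namespace Pool.Agent.MWS.H39

open Pool.Agent.Helper14_MV Pool.Agent.Helper2_MV Pool.Agent.MVO Pool.Agent.MWL

/-- a letter which is not in the blocks of `B` -/
theorem shs_zero {θ : FIC} (hnd : ND (FC.ofFIC θ)) {k : ℕ} {B B' C C' : ℕ → List ℕ} {x : ℕ}
    (h : L1 θ k (ty B x) (ty B' x)) (hB : ∀ j ≤ k, x ∉ B j) (hC : Sub k B C) (hC' : Sub k B' C') :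
    ∀ j ≤ k, ty C x j = 0 ∧ ty C' x j = 0 := by
  have h1 : deg k (ty B x) = 0 := by
    unfold deg
    refine Finset.sum_eq_zero fun j hj => ?_
    have : j ≤ k := by
      have := Finset.mem_range.1 hj
      omega
    exact List.count_eq_zero_of_not_mem (hB j this)
  have h2 : ∀ j ≤ k, ty B x j = ty B' x j := hnd k _ _ h (by omega)
  have hB' : ∀ j ≤ k, x ∉ B' j := by
    intro j hj hx
    have h3 := h2 j hj
    have h4 : ty B x j = 0 := List.count_eq_zero_of_not_mem (hB j hj)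
    have h5 : 0 < ty B' x j := List.count_pos_iff.2 hx
    omega
  intro j hj
  constructor
  · refine List.count_eq_zero_of_not_mem fun hx => ?_
    obtain ⟨i, hi, hx'⟩ := hC x ⟨j, hj, hx⟩
    exact hB i hi hx'
  · refine List.count_eq_zero_of_not_mem fun hx => ?_
    obtain ⟨i, hi, hx'⟩ := hC' x ⟨j, hj, hx⟩
    exact hB' i hi hx'

/-- row SHS -/
theorem shs (hone : MVO.OneStmt) (htrn : MWL.TrnStmt) (hkey : MWL.KeyStmt) (hndn : NdnStmt)
    (hlrn : LrnStmt) (hsta : StaStmt) : ShsStmt := by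
  intro β θ hβ hitr hθ hnc k B B' hB hB' hL
  obtain ⟨C, hC, hSC, hRC, -, hAC⟩ := hsta β θ hβ hitr hθ k B hB
  obtain ⟨C', hC', hSC', hRC', -, hAC'⟩ := hsta β θ hβ hitr hθ k B' hB'
  refine ⟨C, C', hC, hC', hSC, hSC', ?_, hRC, hRC'⟩
  have hnd : ND (FC.ofFIC θ) := hndn β θ hβ.toApI hθ hnc
  have hlr : LR 1 (FC.ofFIC θ) := hlrn β θ hβ hθ
  intro x hx
  have haa' : L1 θ k (ty B x) (ty B' x) := hL x hx
  by_cases hxB : ∃ j ≤ k, x ∈ B j
  · by_cases hxB' : ∃ j ≤ k, x ∈ B' j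
    · have hac : L1 θ k (ty B x) (ty C x) := hone.1 θ k B C x hx hB.ok hC.ok hRC
      have hac' : L1 θ k (ty B' x) (ty C' x) := hone.1 θ k B' C' x hx hB'.ok hC'.ok hRC'
      have hcc' : L1 θ k (ty C x) (ty C' x) :=
        (FC.ofFIC θ).trans ((FC.ofFIC θ).trans ((FC.ofFIC θ).symm hac) haa') hac'
      intro i hi
      by_cases hAb : Ab 1 (FC.ofFIC θ) k (ty B x) i
      · right
        have hAb' : Ab 1 (FC.ofFIC θ) k (ty B' x) i :=
          ((htrn 1 (FC.ofFIC θ) k (ty B x) i).1 (ty B' x) haa').1 hAb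
        exact ⟨hAC x hxB i hi hAb, hAC' x hxB' i hi hAb'⟩
      · left
        have hAbC : ¬ Ab 1 (FC.ofFIC θ) k (ty C x) i := fun h =>
          hAb (((htrn 1 (FC.ofFIC θ) k (ty B x) i).1 (ty C x) hac).2 h)
        exact hkey 1 (FC.ofFIC θ) hlr hnd k (ty C x) (ty C' x) hcc' i hi hAbC
    · intro j hj
      left
      have h0 := shs_zero hnd ((FC.ofFIC θ).symm haa') (fun j hj hx => hxB' ⟨j, hj, hx⟩) hSC' hSC j hj
      rw [h0.1, h0.2]
  · intro j hj
    left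
    have h0 := shs_zero hnd haa' (fun j hj hx => hxB ⟨j, hj, hx⟩) hSC hSC' j hj
    rw [h0.1, h0.2]

end Pool.Agent.MWS.H39
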