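import Pool.Agent.Helper39_MWS.CbLem

/-!
# Squad MWS, row TEV (helper39): the orders in the other blocks of an edge do not matter
-/

set_option autoImplicit false

namespace Pool.Agent.MWS.H39

open Pool.Agent.Helper14_MV Pool.Agent.Helper2_MV Pool.Agent.MVO Pool.Agent.MWL

theorem cb_orders (hnfv : NfvStmt) {V : ℕ → (ℕ → ℕ) → (ℕ → ℕ) → ℕ → Prop} {β : FIC}
    (hV : VisOk V) (hC : ClV V β) {k : ℕ} {a b : ℕ → ℕ} {i : ℕ} (h : V k a b i) {l : List ℕ}
    (hl : LL l) (e e' : ℕ → Bool) : RR β (asm k (cb a b e i l)) (asm k (cb a b e' i l)) := by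
  obtain ⟨hi, hai, hbi⟩ := hV.mem _ _ _ _ h
  refine hnfv V β β hV hC (fic_le_refl β) k _ _ (cb_ok hl hi) (cb_ok hl hi) ?_ ?_
  · intro j _ c
    constructor
    · intro hc
      rcases cb_mem hl hc with rfl | rfl
      · rw [cb_mem0 hl hai] at hc ⊢
        exact hc
      · rw [cb_mem1 hl hbi] at hc ⊢
        exact hc
    · intro hc
      rcases cb_mem hl hc with rfl | rfl
      · rw [cb_mem0 hl hai] at hc ⊢
        exact hc
      · rw [cb_mem1 hl hbi] at hc ⊢
        exact hc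
  · intro x y i' hxy h1 h2
    obtain ⟨rfl, -⟩ := vis_two hV h (cb_two hl)
      (fun j _ => ⟨cb_mem0 hl hai j, cb_mem1 hl hbi j⟩) hxy h1
    exact absurd (by rw [cb_self, cb_self]) h2

/-- row TEV -/
theorem tev (hnfv : NfvStmt) : TevStmt := by
  intro V β θ hV hC hθ k a b i h e hr e'
  have h1 := cb_orders hnfv hV hC h ll_a e' e
  have h2 := cb_orders hnfv hV hC h ll_b e e'
  exact θ.trans (hθ _ _ h1) (θ.trans hr (hθ _ _ h2))

end Pool.Agent.MWS.H39
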